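import Mathlib

/-!
Combinatorial data of the graph.
-/

namespace Pool.Agent.MPd94cb9

/-- The neighbourhoods of the vertices as bit masks. -/
def masks : List ℕ :=
  [8521730, 69468257, 79691776, 100671488, 83890176, 33558530, 16785410, 2099712, 1051648,
  525440, 262912, 385, 8240, 4168, 45088768, 23592960, 18219008, 34144257, 4260866, 67273216,
  67191040, 49282, 33849348, 16793605, 8486992, 4341800, 1572894]

/-- The edges different from `01`. -/
def eds : List (ℕ × ℕ) :=
  [(0, 11), (0, 17), (0, 23), (1, 5), (1, 6), (1, 18), (1, 21), (1, 26), (2, 26), (2, 22), (2,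
  23), (3, 25), (3, 26), (3, 13), (4, 24), (4, 26), (4, 12), (5, 25), (5, 12), (6, 24), (6, 13),
  (7, 9), (7, 11), (7, 21), (8, 10), (8, 11), (8, 20), (9, 10), (9, 19), (10, 18), (12, 13),
  (14, 25), (14, 20), (14, 21), (14, 23), (15, 24), (15, 19), (15, 21), (15, 22), (16, 24), (16,
  17), (16, 18), (16, 20), (17, 25), (17, 19), (18, 22), (19, 26), (20, 26), (22, 25), (23, 24)]

/-- The vertices with their neighbourhoods, in the order used for the colouring search. -/
def ord : List (ℕ × ℕ) :=
  [(26, 1572894), (2, 79691776), (1, 69468257), (21, 49282), (19, 67273216), (15, 23592960),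
  (22, 33849348), (18, 4260866), (20, 67191040), (14, 45088768), (23, 16793605), (24, 8486992),
  (16, 18219008), (17, 34144257), (25, 4341800), (0, 8521730), (4, 83890176), (3, 100671488),
  (5, 33558530), (6, 16785410), (12, 8240), (13, 4168), (7, 2099712), (9, 525440), (11, 385),
  (8, 1051648), (10, 262912)]

/-- A proper colouring with four colours. -/
def col4 : List ℕ :=
  [0, 1, 0, 0, 0, 0, 0, 0, 0, 1, 2, 1, 1, 2, 0, 0, 0, 1, 3, 2, 1, 2, 1, 1, 2, 2, 3]

end Pool.Agent.MPd94cb9
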