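import Pool.Agent.Lib.MP_d94cb9_co.CombData

/-!
The graph: it has no cycles of length `3` and `4` and its chromatic number is `4`.
-/

namespace Pool.Agent.MPd94cb9

/-- Adjacency. -/
def adjB (u v : Fin 27) : Bool := Nat.testBit (masks.getD u.val 0) v.val

theorem adjB_symm : ∀ u v : Fin 27, adjB u v = true → adjB v u = true := by decide +kernel

theorem adjB_irrefl : ∀ u : Fin 27, ¬ (adjB u u = true) := by decide +kernel

/-- The graph. -/
def G : SimpleGraph (Fin 27) where
  Adj u v := adjB u v = true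
  symm := ⟨fun u v h => adjB_symm u v h⟩
  loopless := ⟨fun u h => adjB_irrefl u h⟩

theorem no_short : ∀ u a : Fin 27, adjB u a = true → ∀ b : Fin 27, adjB a b = true →
    (adjB b u = true → False) ∧ (b ≠ u → ∀ d : Fin 27, adjB b d = true → adjB d u = true →
      d = a) := by
  decide +kernel

theorem five_le_length (v : Fin 27) (c : G.Walk v v) (hc : c.IsCycle) : 5 ≤ c.length := by
  have h3 := hc.three_le_length
  by_contra hlt
  push Not at hlt
  have hn := hc.support_nodup
  match c, h3, hlt, hn with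
  | .cons (v := a) h1 (.cons (v := b) h2 (.cons h3' .nil)), _, _, _ =>
    exact (no_short v a h1 b h2).1 h3'
  | .cons (v := a) h1 (.cons (v := b) h2 (.cons (v := d) h3' (.cons h4 .nil))), _, _, hn =>
    simp only [SimpleGraph.Walk.support_cons, SimpleGraph.Walk.support_nil, List.tail_cons] at hn
    have hbv : b ≠ v := by
      rintro rfl
      simp at hn
    have had : d ≠ a := by
      rintro rfl
      simp at hn
    exact had ((no_short v a h1 b h2).2 hbv d h3' h4)
  | .cons _ (.cons _ .nil), h3, _, _ => simp at h3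
  | .cons _ .nil, h3, _, _ => simp at h3
  | .nil, h3, _, _ => simp at h3
  | .cons _ (.cons _ (.cons _ (.cons _ (.cons _ _)))), _, hlt, _ =>
    simp only [SimpleGraph.Walk.length_cons] at hlt
    omega

/-- Exhaustive search for a proper colouring with three colours: `a`, `b`, `c` are the colour
classes of the vertices coloured so far. -/
def search : List (ℕ × ℕ) → ℕ → ℕ → ℕ → Bool
  | [], _, _, _ => true
  | p :: vs, a, b, c =>
    or (and (Nat.beq (Nat.land p.2 a) 0) (search vs (Nat.lor a (Nat.pow 2 p.1)) b c))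
    (or (and (Nat.beq (Nat.land p.2 b) 0) (search vs a (Nat.lor b (Nat.pow 2 p.1)) c))
    (and (Nat.beq (Nat.land p.2 c) 0) (search vs a b (Nat.lor c (Nat.pow 2 p.1)))))

theorem search_ord : search ord 0 0 0 = false := by decide +kernel

theorem ord_ok : ∀ p ∈ ord, p.1 < 27 ∧ p.2 = masks.getD p.1 0 := by decide +kernel

theorem masks_lt : ∀ u : Fin 27, masks.getD u.val 0 < 2 ^ 27 := by decide +kernel

theorem lor_pow_bits {f : Fin 27 → Fin 3} {i : Fin 3} {a : ℕ} {v : Fin 27}
    (ha : ∀ w, a.testBit w = true → ∃ w' : Fin 27, w'.val = w ∧ f w' = i) (hv : f v = i) :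
    ∀ w, (Nat.lor a (Nat.pow 2 v.val)).testBit w = true → ∃ w' : Fin 27, w'.val = w ∧ f w' = i := by
  intro w hw
  have hw' : (a ||| 2 ^ v.val).testBit w = true := hw
  rw [Nat.testBit_or, Nat.testBit_two_pow, Bool.or_eq_true, decide_eq_true_eq] at hw'
  rcases hw' with h | h
  · exact ha w h
  · exact ⟨v, h, hv⟩

theorem land_zero {f : Fin 27 → Fin 3} {i : Fin 3} {a : ℕ} {v : Fin 27}
    (hf : ∀ u v, adjB u v = true → f u ≠ f v)
    (ha : ∀ w, a.testBit w = true → ∃ w' : Fin 27, w'.val = w ∧ f w' = i) (hv : f v = i) :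
    Nat.beq (Nat.land (masks.getD v.val 0) a) 0 = true := by
  rw [Nat.beq_eq]
  refine Nat.eq_of_testBit_eq fun w => ?_
  rw [Nat.zero_testBit]
  by_contra h
  have h' : ((masks.getD v.val 0) &&& a).testBit w = true := by
    simpa using h
  rw [Nat.testBit_and, Bool.and_eq_true] at h'
  obtain ⟨w', hw', hfw⟩ := ha w h'.2
  have h1 : adjB v w' = true := by
    unfold adjB
    rw [hw']
    exact h'.1
  exact hf v w' h1 (by rw [hv, hfw])

theorem search_sound {f : Fin 27 → Fin 3} (hf : ∀ u v, adjB u v = true → f u ≠ f v) :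
    ∀ (l : List (ℕ × ℕ)) (_ : ∀ p ∈ l, p.1 < 27 ∧ p.2 = masks.getD p.1 0) (a b c : ℕ),
      (∀ w, a.testBit w = true → ∃ w' : Fin 27, w'.val = w ∧ f w' = 0) →
      (∀ w, b.testBit w = true → ∃ w' : Fin 27, w'.val = w ∧ f w' = 1) →
      (∀ w, c.testBit w = true → ∃ w' : Fin 27, w'.val = w ∧ f w' = 2) →
      search l a b c = true
  | [], _, _, _, _, _, _, _ => rfl
  | p :: l, hl, a, b, c, ha, hb, hc => by
    obtain ⟨h1, h2⟩ := hl p (by simp)
    have hl' : ∀ p ∈ l, p.1 < 27 ∧ p.2 = masks.getD p.1 0 := fun q hq => hl q (by simp [hq])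
    obtain ⟨v, m⟩ := p
    simp only at h1 h2
    subst h2
    set v' : Fin 27 := ⟨v, h1⟩ with hv'
    have hcase : f v' = 0 ∨ f v' = 1 ∨ f v' = 2 := by
      have : ∀ x : Fin 3, x = 0 ∨ x = 1 ∨ x = 2 := by decide
      exact this _
    simp only [search, Bool.or_eq_true, Bool.and_eq_true]
    rcases hcase with h | h | h
    · left
      exact ⟨land_zero (v := v') hf ha h, search_sound hf l hl' _ _ _ (lor_pow_bits (v := v') ha h)
        hb hc⟩
    · right; left
      exact ⟨land_zero (v := v') hf hb h, search_sound hf l hl' _ _ _ ha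
        (lor_pow_bits (v := v') hb h) hc⟩
    · right; right
      exact ⟨land_zero (v := v') hf hc h, search_sound hf l hl' _ _ _ ha hb
        (lor_pow_bits (v := v') hc h)⟩

theorem not_colorable_three : ¬ G.Colorable 3 := by
  rintro ⟨C⟩
  have hf : ∀ u v, adjB u v = true → C u ≠ C v := fun u v h => C.valid h
  have h := search_sound hf ord ord_ok 0 0 0 (by simp) (by simp) (by simp)
  rw [search_ord] at h
  exact absurd h (by simp)

/-- A colouring with four colours. -/
def c4 (v : Fin 27) : Fin 4 := ⟨(col4.getD v.val 0) % 4, Nat.mod_lt _ (by norm_num)⟩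

theorem c4_valid : ∀ u v : Fin 27, adjB u v = true → c4 u ≠ c4 v := by decide +kernel

theorem colorable_four : G.Colorable 4 := ⟨SimpleGraph.Coloring.mk c4 fun {u v} h => c4_valid u v h⟩

theorem chromatic_eq : G.chromaticNumber = 4 := by
  refine le_antisymm colorable_four.chromaticNumber_le ?_
  by_contra h
  push Not at h
  have h3 : G.chromaticNumber ≤ 3 := by
    exact Order.le_of_lt_add_one (by norm_num at h ⊢; exact h)
  exact not_colorable_three (SimpleGraph.chromaticNumber_le_iff_colorable.mp h3)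

end Pool.Agent.MPd94cb9
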