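import Pool.Agent.Lib.MP_f7203b_co.Kraw2
import Pool.Agent.Lib.MP_d94cb9_co.Graph

section

/-!
Numerical data of a unit distance embedding of a 4-chromatic graph of girth 5 with 27 vertices:
coordinates are given in units of `10 ^ (-6)`; vertex `0` is at the origin and vertex `1` at
`(10 ^ 6, 0)`; the variables `2 (v - 2)` and `2 (v - 2) + 1` are the coordinates of vertex `v`.
-/

namespace Pool.Agent.MPd94cb9

/-- The approximate solution. -/
def xl : List ℤ :=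
  [592755, -551376, 454914, -627744, 629754, 1090548, 347096, 757441, 1986572, 163327, 77030,
  1093346, 91367, 144158, 203223, 101340, 504158, 1054984, -795877, 605459, 1232497, 292612,
  1453404, -682683, 74722, 929479, 1520648, 103459, 721530, 1516028, -129882, 991529, 1487483,
  873132, 860725, 854792, 1002484, 556307, 1072414, 997375, 582086, 448567, 919175, 393849,
  1629730, 1097491, -316138, 9028, 40716, 282442]

/-- The quadratic terms of the equations. -/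
def ql : List (List (ℤ × Fin 50 × Fin 50)) :=
  [[(1, 18, 18), (1, 19, 19)], [(1, 30, 30), (1, 31, 31)], [(1, 42, 42), (1, 43, 43)], [(1, 6,
  6), (1, 7, 7)], [(1, 8, 8), (1, 9, 9)], [(1, 32, 32), (1, 33, 33)], [(1, 38, 38), (1, 39,
  39)], [(1, 48, 48), (1, 49, 49)], [(1, 0, 0), (1, 48, 48), (-2, 0, 48), (1, 1, 1), (1, 49,
  49), (-2, 1, 49)], [(1, 0, 0), (1, 40, 40), (-2, 0, 40), (1, 1, 1), (1, 41, 41), (-2, 1, 41)],
  [(1, 0, 0), (1, 42, 42), (-2, 0, 42), (1, 1, 1), (1, 43, 43), (-2, 1, 43)], [(1, 2, 2), (1,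
  46, 46), (-2, 2, 46), (1, 3, 3), (1, 47, 47), (-2, 3, 47)], [(1, 2, 2), (1, 48, 48), (-2, 2,
  48), (1, 3, 3), (1, 49, 49), (-2, 3, 49)], [(1, 2, 2), (1, 22, 22), (-2, 2, 22), (1, 3, 3),
  (1, 23, 23), (-2, 3, 23)], [(1, 4, 4), (1, 44, 44), (-2, 4, 44), (1, 5, 5), (1, 45, 45), (-2,
  5, 45)], [(1, 4, 4), (1, 48, 48), (-2, 4, 48), (1, 5, 5), (1, 49, 49), (-2, 5, 49)], [(1, 4,
  4), (1, 20, 20), (-2, 4, 20), (1, 5, 5), (1, 21, 21), (-2, 5, 21)], [(1, 6, 6), (1, 46, 46),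
  (-2, 6, 46), (1, 7, 7), (1, 47, 47), (-2, 7, 47)], [(1, 6, 6), (1, 20, 20), (-2, 6, 20), (1,
  7, 7), (1, 21, 21), (-2, 7, 21)], [(1, 8, 8), (1, 44, 44), (-2, 8, 44), (1, 9, 9), (1, 45,
  45), (-2, 9, 45)], [(1, 8, 8), (1, 22, 22), (-2, 8, 22), (1, 9, 9), (1, 23, 23), (-2, 9, 23)],
  [(1, 10, 10), (1, 14, 14), (-2, 10, 14), (1, 11, 11), (1, 15, 15), (-2, 11, 15)], [(1, 10,
  10), (1, 18, 18), (-2, 10, 18), (1, 11, 11), (1, 19, 19), (-2, 11, 19)], [(1, 10, 10), (1, 38,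
  38), (-2, 10, 38), (1, 11, 11), (1, 39, 39), (-2, 11, 39)], [(1, 12, 12), (1, 16, 16), (-2,
  12, 16), (1, 13, 13), (1, 17, 17), (-2, 13, 17)], [(1, 12, 12), (1, 18, 18), (-2, 12, 18), (1,
  13, 13), (1, 19, 19), (-2, 13, 19)], [(1, 12, 12), (1, 36, 36), (-2, 12, 36), (1, 13, 13), (1,
  37, 37), (-2, 13, 37)], [(1, 14, 14), (1, 16, 16), (-2, 14, 16), (1, 15, 15), (1, 17, 17),
  (-2, 15, 17)], [(1, 14, 14), (1, 34, 34), (-2, 14, 34), (1, 15, 15), (1, 35, 35), (-2, 15,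
  35)], [(1, 16, 16), (1, 32, 32), (-2, 16, 32), (1, 17, 17), (1, 33, 33), (-2, 17, 33)], [(1,
  20, 20), (1, 22, 22), (-2, 20, 22), (1, 21, 21), (1, 23, 23), (-2, 21, 23)], [(1, 24, 24), (1,
  46, 46), (-2, 24, 46), (1, 25, 25), (1, 47, 47), (-2, 25, 47)], [(1, 24, 24), (1, 36, 36),
  (-2, 24, 36), (1, 25, 25), (1, 37, 37), (-2, 25, 37)], [(1, 24, 24), (1, 38, 38), (-2, 24,
  38), (1, 25, 25), (1, 39, 39), (-2, 25, 39)], [(1, 24, 24), (1, 42, 42), (-2, 24, 42), (1, 25,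
  25), (1, 43, 43), (-2, 25, 43)], [(1, 26, 26), (1, 44, 44), (-2, 26, 44), (1, 27, 27), (1, 45,
  45), (-2, 27, 45)], [(1, 26, 26), (1, 34, 34), (-2, 26, 34), (1, 27, 27), (1, 35, 35), (-2,
  27, 35)], [(1, 26, 26), (1, 38, 38), (-2, 26, 38), (1, 27, 27), (1, 39, 39), (-2, 27, 39)],
  [(1, 26, 26), (1, 40, 40), (-2, 26, 40), (1, 27, 27), (1, 41, 41), (-2, 27, 41)], [(1, 28,
  28), (1, 44, 44), (-2, 28, 44), (1, 29, 29), (1, 45, 45), (-2, 29, 45)], [(1, 28, 28), (1, 30,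
  30), (-2, 28, 30), (1, 29, 29), (1, 31, 31), (-2, 29, 31)], [(1, 28, 28), (1, 32, 32), (-2,
  28, 32), (1, 29, 29), (1, 33, 33), (-2, 29, 33)], [(1, 28, 28), (1, 36, 36), (-2, 28, 36), (1,
  29, 29), (1, 37, 37), (-2, 29, 37)], [(1, 30, 30), (1, 46, 46), (-2, 30, 46), (1, 31, 31), (1,
  47, 47), (-2, 31, 47)], [(1, 30, 30), (1, 34, 34), (-2, 30, 34), (1, 31, 31), (1, 35, 35),
  (-2, 31, 35)], [(1, 32, 32), (1, 40, 40), (-2, 32, 40), (1, 33, 33), (1, 41, 41), (-2, 33,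
  41)], [(1, 34, 34), (1, 48, 48), (-2, 34, 48), (1, 35, 35), (1, 49, 49), (-2, 35, 49)], [(1,
  36, 36), (1, 48, 48), (-2, 36, 48), (1, 37, 37), (1, 49, 49), (-2, 37, 49)], [(1, 40, 40), (1,
  46, 46), (-2, 40, 46), (1, 41, 41), (1, 47, 47), (-2, 41, 47)], [(1, 42, 42), (1, 44, 44),
  (-2, 42, 44), (1, 43, 43), (1, 45, 45), (-2, 43, 45)]]

/-- The linear terms of the equations. -/
def ll : List (List (ℤ × Fin 50)) :=
  [[], [], [], [(-2000000, 6)], [(-2000000, 8)], [(-2000000, 32)], [(-2000000, 38)], [(-2000000,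
  48)], [], [], [], [], [], [], [], [], [], [], [], [], [], [], [], [], [], [], [], [], [], [],
  [], [], [], [], [], [], [], [], [], [], [], [], [], [], [], [], [], [], [], []]

/-- The constant terms of the equations. -/
def cl : List ℤ :=
  [1000000000000, 1000000000000, 1000000000000, 0, 0, 0, 0, 0, 1000000000000, 1000000000000,
  1000000000000, 1000000000000, 1000000000000, 1000000000000, 1000000000000, 1000000000000,
  1000000000000, 1000000000000, 1000000000000, 1000000000000, 1000000000000, 1000000000000,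
  1000000000000, 1000000000000, 1000000000000, 1000000000000, 1000000000000, 1000000000000,
  1000000000000, 1000000000000, 1000000000000, 1000000000000, 1000000000000, 1000000000000,
  1000000000000, 1000000000000, 1000000000000, 1000000000000, 1000000000000, 1000000000000,
  1000000000000, 1000000000000, 1000000000000, 1000000000000, 1000000000000, 1000000000000,
  1000000000000, 1000000000000, 1000000000000, 1000000000000]

/-- Row 0 of the Jacobian matrix. -/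
def M0 : List ℤ :=
  [0, 0, 0, 0, 0, 0, 0, 0, 0, 0, 0, 0, 0, 0, 0, 0, 0, 0, -1591754, 1210918, 0, 0, 0, 0, 0, 0, 0,
  0, 0, 0, 0, 0, 0, 0, 0, 0, 0, 0, 0, 0, 0, 0, 0, 0, 0, 0, 0, 0, 0, 0]

/-- Row 1 of the Jacobian matrix. -/
def M1 : List ℤ :=
  [0, 0, 0, 0, 0, 0, 0, 0, 0, 0, 0, 0, 0, 0, 0, 0, 0, 0, 0, 0, 0, 0, 0, 0, 0, 0, 0, 0, 0, 0,
  -259764, 1983058, 0, 0, 0, 0, 0, 0, 0, 0, 0, 0, 0, 0, 0, 0, 0, 0, 0, 0]

/-- Row 2 of the Jacobian matrix. -/
def M2 : List ℤ :=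
  [0, 0, 0, 0, 0, 0, 0, 0, 0, 0, 0, 0, 0, 0, 0, 0, 0, 0, 0, 0, 0, 0, 0, 0, 0, 0, 0, 0, 0, 0, 0,
  0, 0, 0, 0, 0, 0, 0, 0, 0, 0, 0, 1838350, 787698, 0, 0, 0, 0, 0, 0]

/-- Row 3 of the Jacobian matrix. -/
def M3 : List ℤ :=
  [0, 0, 0, 0, 0, 0, -1305808, 1514882, 0, 0, 0, 0, 0, 0, 0, 0, 0, 0, 0, 0, 0, 0, 0, 0, 0, 0, 0,
  0, 0, 0, 0, 0, 0, 0, 0, 0, 0, 0, 0, 0, 0, 0, 0, 0, 0, 0, 0, 0, 0, 0]

/-- Row 4 of the Jacobian matrix. -/
def M4 : List ℤ :=
  [0, 0, 0, 0, 0, 0, 0, 0, 1973144, 326654, 0, 0, 0, 0, 0, 0, 0, 0, 0, 0, 0, 0, 0, 0, 0, 0, 0,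
  0, 0, 0, 0, 0, 0, 0, 0, 0, 0, 0, 0, 0, 0, 0, 0, 0, 0, 0, 0, 0, 0, 0]

/-- Row 5 of the Jacobian matrix. -/
def M5 : List ℤ :=
  [0, 0, 0, 0, 0, 0, 0, 0, 0, 0, 0, 0, 0, 0, 0, 0, 0, 0, 0, 0, 0, 0, 0, 0, 0, 0, 0, 0, 0, 0, 0,
  0, 974966, 1746264, 0, 0, 0, 0, 0, 0, 0, 0, 0, 0, 0, 0, 0, 0, 0, 0]

/-- Row 6 of the Jacobian matrix. -/
def M6 : List ℤ :=
  [0, 0, 0, 0, 0, 0, 0, 0, 0, 0, 0, 0, 0, 0, 0, 0, 0, 0, 0, 0, 0, 0, 0, 0, 0, 0, 0, 0, 0, 0, 0,
  0, 0, 0, 0, 0, 0, 0, 144828, 1994750, 0, 0, 0, 0, 0, 0, 0, 0, 0, 0]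

/-- Row 7 of the Jacobian matrix. -/
def M7 : List ℤ :=
  [0, 0, 0, 0, 0, 0, 0, 0, 0, 0, 0, 0, 0, 0, 0, 0, 0, 0, 0, 0, 0, 0, 0, 0, 0, 0, 0, 0, 0, 0, 0,
  0, 0, 0, 0, 0, 0, 0, 0, 0, 0, 0, 0, 0, 0, 0, 0, 0, -1918568, 564884]

/-- Row 8 of the Jacobian matrix. -/
def M8 : List ℤ :=
  [1104078, -1667636, 0, 0, 0, 0, 0, 0, 0, 0, 0, 0, 0, 0, 0, 0, 0, 0, 0, 0, 0, 0, 0, 0, 0, 0, 0,
  0, 0, 0, 0, 0, 0, 0, 0, 0, 0, 0, 0, 0, 0, 0, 0, 0, 0, 0, 0, 0, -1104078, 1667636]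

/-- Row 9 of the Jacobian matrix. -/
def M9 : List ℤ :=
  [21338, -1999886, 0, 0, 0, 0, 0, 0, 0, 0, 0, 0, 0, 0, 0, 0, 0, 0, 0, 0, 0, 0, 0, 0, 0, 0, 0,
  0, 0, 0, 0, 0, 0, 0, 0, 0, 0, 0, 0, 0, -21338, 1999886, 0, 0, 0, 0, 0, 0, 0, 0]

/-- Row 10 of the Jacobian matrix. -/
def M10 : List ℤ :=
  [-652840, -1890450, 0, 0, 0, 0, 0, 0, 0, 0, 0, 0, 0, 0, 0, 0, 0, 0, 0, 0, 0, 0, 0, 0, 0, 0, 0,
  0, 0, 0, 0, 0, 0, 0, 0, 0, 0, 0, 0, 0, 0, 0, 652840, 1890450, 0, 0, 0, 0, 0, 0]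

/-- Row 11 of the Jacobian matrix. -/
def M11 : List ℤ :=
  [0, 0, 1542104, -1273544, 0, 0, 0, 0, 0, 0, 0, 0, 0, 0, 0, 0, 0, 0, 0, 0, 0, 0, 0, 0, 0, 0, 0,
  0, 0, 0, 0, 0, 0, 0, 0, 0, 0, 0, 0, 0, 0, 0, 0, 0, 0, 0, -1542104, 1273544, 0, 0]

/-- Row 12 of the Jacobian matrix. -/
def M12 : List ℤ :=
  [0, 0, 828396, -1820372, 0, 0, 0, 0, 0, 0, 0, 0, 0, 0, 0, 0, 0, 0, 0, 0, 0, 0, 0, 0, 0, 0, 0,
  0, 0, 0, 0, 0, 0, 0, 0, 0, 0, 0, 0, 0, 0, 0, 0, 0, 0, 0, 0, 0, -828396, 1820372]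

/-- Row 13 of the Jacobian matrix. -/
def M13 : List ℤ :=
  [0, 0, -1996980, 109878, 0, 0, 0, 0, 0, 0, 0, 0, 0, 0, 0, 0, 0, 0, 0, 0, 0, 0, 1996980,
  -109878, 0, 0, 0, 0, 0, 0, 0, 0, 0, 0, 0, 0, 0, 0, 0, 0, 0, 0, 0, 0, 0, 0, 0, 0, 0, 0]

/-- Row 14 of the Jacobian matrix. -/
def M14 : List ℤ :=
  [0, 0, 0, 0, -1999952, -13886, 0, 0, 0, 0, 0, 0, 0, 0, 0, 0, 0, 0, 0, 0, 0, 0, 0, 0, 0, 0, 0,
  0, 0, 0, 0, 0, 0, 0, 0, 0, 0, 0, 0, 0, 0, 0, 0, 0, 1999952, 13886, 0, 0, 0, 0]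

/-- Row 15 of the Jacobian matrix. -/
def M15 : List ℤ :=
  [0, 0, 0, 0, 1178076, 1616212, 0, 0, 0, 0, 0, 0, 0, 0, 0, 0, 0, 0, 0, 0, 0, 0, 0, 0, 0, 0, 0,
  0, 0, 0, 0, 0, 0, 0, 0, 0, 0, 0, 0, 0, 0, 0, 0, 0, 0, 0, 0, 0, -1178076, -1616212]

/-- Row 16 of the Jacobian matrix. -/
def M16 : List ℤ :=
  [0, 0, 0, 0, -1205486, 1595872, 0, 0, 0, 0, 0, 0, 0, 0, 0, 0, 0, 0, 0, 0, 1205486, -1595872,
  0, 0, 0, 0, 0, 0, 0, 0, 0, 0, 0, 0, 0, 0, 0, 0, 0, 0, 0, 0, 0, 0, 0, 0, 0, 0, 0, 0]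

/-- Row 17 of the Jacobian matrix. -/
def M17 : List ℤ :=
  [0, 0, 0, 0, 0, 0, 1326468, 1496826, 0, 0, 0, 0, 0, 0, 0, 0, 0, 0, 0, 0, 0, 0, 0, 0, 0, 0, 0,
  0, 0, 0, 0, 0, 0, 0, 0, 0, 0, 0, 0, 0, 0, 0, 0, 0, 0, 0, -1326468, -1496826, 0, 0]

/-- Row 18 of the Jacobian matrix. -/
def M18 : List ℤ :=
  [0, 0, 0, 0, 0, 0, -1770802, 929658, 0, 0, 0, 0, 0, 0, 0, 0, 0, 0, 0, 0, 1770802, -929658, 0,
  0, 0, 0, 0, 0, 0, 0, 0, 0, 0, 0, 0, 0, 0, 0, 0, 0, 0, 0, 0, 0, 0, 0, 0, 0, 0, 0]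

/-- Row 19 of the Jacobian matrix. -/
def M19 : List ℤ :=
  [0, 0, 0, 0, 0, 0, 0, 0, 713684, -1868328, 0, 0, 0, 0, 0, 0, 0, 0, 0, 0, 0, 0, 0, 0, 0, 0, 0,
  0, 0, 0, 0, 0, 0, 0, 0, 0, 0, 0, 0, 0, 0, 0, 0, 0, -713684, 1868328, 0, 0, 0, 0]

/-- Row 20 of the Jacobian matrix. -/
def M20 : List ℤ :=
  [0, 0, 0, 0, 0, 0, 0, 0, 1066336, 1692020, 0, 0, 0, 0, 0, 0, 0, 0, 0, 0, 0, 0, -1066336,
  -1692020, 0, 0, 0, 0, 0, 0, 0, 0, 0, 0, 0, 0, 0, 0, 0, 0, 0, 0, 0, 0, 0, 0, 0, 0, 0, 0]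

/-- Row 21 of the Jacobian matrix. -/
def M21 : List ℤ :=
  [0, 0, 0, 0, 0, 0, 0, 0, 0, 0, -252386, 1984012, 0, 0, 252386, -1984012, 0, 0, 0, 0, 0, 0, 0,
  0, 0, 0, 0, 0, 0, 0, 0, 0, 0, 0, 0, 0, 0, 0, 0, 0, 0, 0, 0, 0, 0, 0, 0, 0, 0, 0]

/-- Row 22 of the Jacobian matrix. -/
def M22 : List ℤ :=
  [0, 0, 0, 0, 0, 0, 0, 0, 0, 0, 1745814, 975774, 0, 0, 0, 0, 0, 0, -1745814, -975774, 0, 0, 0,
  0, 0, 0, 0, 0, 0, 0, 0, 0, 0, 0, 0, 0, 0, 0, 0, 0, 0, 0, 0, 0, 0, 0, 0, 0, 0, 0]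

/-- Row 23 of the Jacobian matrix. -/
def M23 : List ℤ :=
  [0, 0, 0, 0, 0, 0, 0, 0, 0, 0, -1990768, 191942, 0, 0, 0, 0, 0, 0, 0, 0, 0, 0, 0, 0, 0, 0, 0,
  0, 0, 0, 0, 0, 0, 0, 0, 0, 0, 0, 1990768, -191942, 0, 0, 0, 0, 0, 0, 0, 0, 0, 0]

/-- Row 24 of the Jacobian matrix. -/
def M24 : List ℤ :=
  [0, 0, 0, 0, 0, 0, 0, 0, 0, 0, 0, 0, -825582, -1821652, 0, 0, 825582, 1821652, 0, 0, 0, 0, 0,
  0, 0, 0, 0, 0, 0, 0, 0, 0, 0, 0, 0, 0, 0, 0, 0, 0, 0, 0, 0, 0, 0, 0, 0, 0, 0, 0]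

/-- Row 25 of the Jacobian matrix. -/
def M25 : List ℤ :=
  [0, 0, 0, 0, 0, 0, 0, 0, 0, 0, 0, 0, 1774488, -922602, 0, 0, 0, 0, -1774488, 922602, 0, 0, 0,
  0, 0, 0, 0, 0, 0, 0, 0, 0, 0, 0, 0, 0, 0, 0, 0, 0, 0, 0, 0, 0, 0, 0, 0, 0, 0, 0]

/-- Row 26 of the Jacobian matrix. -/
def M26 : List ℤ :=
  [0, 0, 0, 0, 0, 0, 0, 0, 0, 0, 0, 0, -1822234, -824298, 0, 0, 0, 0, 0, 0, 0, 0, 0, 0, 0, 0, 0,
  0, 0, 0, 0, 0, 0, 0, 0, 0, 1822234, 824298, 0, 0, 0, 0, 0, 0, 0, 0, 0, 0, 0, 0]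

/-- Row 27 of the Jacobian matrix. -/
def M27 : List ℤ :=
  [0, 0, 0, 0, 0, 0, 0, 0, 0, 0, 0, 0, 0, 0, -601870, -1907288, 601870, 1907288, 0, 0, 0, 0, 0,
  0, 0, 0, 0, 0, 0, 0, 0, 0, 0, 0, 0, 0, 0, 0, 0, 0, 0, 0, 0, 0, 0, 0, 0, 0, 0, 0]

/-- Row 28 of the Jacobian matrix. -/
def M28 : List ℤ :=
  [0, 0, 0, 0, 0, 0, 0, 0, 0, 0, 0, 0, 0, 0, -1315004, -1506904, 0, 0, 0, 0, 0, 0, 0, 0, 0, 0,
  0, 0, 0, 0, 0, 0, 0, 0, 1315004, 1506904, 0, 0, 0, 0, 0, 0, 0, 0, 0, 0, 0, 0, 0, 0]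

/-- Row 29 of the Jacobian matrix. -/
def M29 : List ℤ :=
  [0, 0, 0, 0, 0, 0, 0, 0, 0, 0, 0, 0, 0, 0, 0, 0, -1966650, 363704, 0, 0, 0, 0, 0, 0, 0, 0, 0,
  0, 0, 0, 0, 0, 1966650, -363704, 0, 0, 0, 0, 0, 0, 0, 0, 0, 0, 0, 0, 0, 0, 0, 0]

/-- Row 30 of the Jacobian matrix. -/
def M30 : List ℤ :=
  [0, 0, 0, 0, 0, 0, 0, 0, 0, 0, 0, 0, 0, 0, 0, 0, 0, 0, 0, 0, -441814, 1950590, 441814,
  -1950590, 0, 0, 0, 0, 0, 0, 0, 0, 0, 0, 0, 0, 0, 0, 0, 0, 0, 0, 0, 0, 0, 0, 0, 0, 0, 0]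

/-- Row 31 of the Jacobian matrix. -/
def M31 : List ℤ :=
  [0, 0, 0, 0, 0, 0, 0, 0, 0, 0, 0, 0, 0, 0, 0, 0, 0, 0, 0, 0, 0, 0, 0, 0, 781720, 1840902, 0,
  0, 0, 0, 0, 0, 0, 0, 0, 0, 0, 0, 0, 0, 0, 0, 0, 0, 0, 0, -781720, -1840902, 0, 0]

/-- Row 32 of the Jacobian matrix. -/
def M32 : List ℤ :=
  [0, 0, 0, 0, 0, 0, 0, 0, 0, 0, 0, 0, 0, 0, 0, 0, 0, 0, 0, 0, 0, 0, 0, 0, -1855524, 746344, 0,
  0, 0, 0, 0, 0, 0, 0, 0, 0, 1855524, -746344, 0, 0, 0, 0, 0, 0, 0, 0, 0, 0, 0, 0]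

/-- Row 33 of the Jacobian matrix. -/
def M33 : List ℤ :=
  [0, 0, 0, 0, 0, 0, 0, 0, 0, 0, 0, 0, 0, 0, 0, 0, 0, 0, 0, 0, 0, 0, 0, 0, -1995384, -135792, 0,
  0, 0, 0, 0, 0, 0, 0, 0, 0, 0, 0, 1995384, 135792, 0, 0, 0, 0, 0, 0, 0, 0, 0, 0]

/-- Row 34 of the Jacobian matrix. -/
def M34 : List ℤ :=
  [0, 0, 0, 0, 0, 0, 0, 0, 0, 0, 0, 0, 0, 0, 0, 0, 0, 0, 0, 0, 0, 0, 0, 0, -1688906, 1071260, 0,
  0, 0, 0, 0, 0, 0, 0, 0, 0, 0, 0, 0, 0, 0, 0, 1688906, -1071260, 0, 0, 0, 0, 0, 0]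

/-- Row 35 of the Jacobian matrix. -/
def M35 : List ℤ :=
  [0, 0, 0, 0, 0, 0, 0, 0, 0, 0, 0, 0, 0, 0, 0, 0, 0, 0, 0, 0, 0, 0, 0, 0, 0, 0, -218164,
  -1988064, 0, 0, 0, 0, 0, 0, 0, 0, 0, 0, 0, 0, 0, 0, 0, 0, 218164, 1988064, 0, 0, 0, 0]

/-- Row 36 of the Jacobian matrix. -/
def M36 : List ℤ :=
  [0, 0, 0, 0, 0, 0, 0, 0, 0, 0, 0, 0, 0, 0, 0, 0, 0, 0, 0, 0, 0, 0, 0, 0, 0, 0, 1319846,
  -1502666, 0, 0, 0, 0, 0, 0, -1319846, 1502666, 0, 0, 0, 0, 0, 0, 0, 0, 0, 0, 0, 0, 0, 0]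

/-- Row 37 of the Jacobian matrix. -/
def M37 : List ℤ :=
  [0, 0, 0, 0, 0, 0, 0, 0, 0, 0, 0, 0, 0, 0, 0, 0, 0, 0, 0, 0, 0, 0, 0, 0, 0, 0, 896468,
  -1787832, 0, 0, 0, 0, 0, 0, 0, 0, 0, 0, -896468, 1787832, 0, 0, 0, 0, 0, 0, 0, 0, 0, 0]

/-- Row 38 of the Jacobian matrix. -/
def M38 : List ℤ :=
  [0, 0, 0, 0, 0, 0, 0, 0, 0, 0, 0, 0, 0, 0, 0, 0, 0, 0, 0, 0, 0, 0, 0, 0, 0, 0, 1877124,
  -690216, 0, 0, 0, 0, 0, 0, 0, 0, 0, 0, 0, 0, -1877124, 690216, 0, 0, 0, 0, 0, 0, 0, 0]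

/-- Row 39 of the Jacobian matrix. -/
def M39 : List ℤ :=
  [0, 0, 0, 0, 0, 0, 0, 0, 0, 0, 0, 0, 0, 0, 0, 0, 0, 0, 0, 0, 0, 0, 0, 0, 0, 0, 0, 0, -1816400,
  837074, 0, 0, 0, 0, 0, 0, 0, 0, 0, 0, 0, 0, 0, 0, 1816400, -837074, 0, 0, 0, 0]

/-- Row 40 of the Jacobian matrix. -/
def M40 : List ℤ :=
  [0, 0, 0, 0, 0, 0, 0, 0, 0, 0, 0, 0, 0, 0, 0, 0, 0, 0, 0, 0, 0, 0, 0, 0, 0, 0, 0, 0, 1702824,
  1048998, -1702824, -1048998, 0, 0, 0, 0, 0, 0, 0, 0, 0, 0, 0, 0, 0, 0, 0, 0, 0, 0]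

/-- Row 41 of the Jacobian matrix. -/
def M41 : List ℤ :=
  [0, 0, 0, 0, 0, 0, 0, 0, 0, 0, 0, 0, 0, 0, 0, 0, 0, 0, 0, 0, 0, 0, 0, 0, 0, 0, 0, 0, -1531906,
  1285792, 0, 0, 1531906, -1285792, 0, 0, 0, 0, 0, 0, 0, 0, 0, 0, 0, 0, 0, 0, 0, 0]

/-- Row 42 of the Jacobian matrix. -/
def M42 : List ℤ :=
  [0, 0, 0, 0, 0, 0, 0, 0, 0, 0, 0, 0, 0, 0, 0, 0, 0, 0, 0, 0, 0, 0, 0, 0, 0, 0, 0, 0, -561908,
  1919442, 0, 0, 0, 0, 0, 0, 561908, -1919442, 0, 0, 0, 0, 0, 0, 0, 0, 0, 0, 0, 0]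

/-- Row 43 of the Jacobian matrix. -/
def M43 : List ℤ :=
  [0, 0, 0, 0, 0, 0, 0, 0, 0, 0, 0, 0, 0, 0, 0, 0, 0, 0, 0, 0, 0, 0, 0, 0, 0, 0, 0, 0, 0, 0,
  372512, 1965002, 0, 0, 0, 0, 0, 0, 0, 0, 0, 0, 0, 0, 0, 0, -372512, -1965002, 0, 0]

/-- Row 44 of the Jacobian matrix. -/
def M44 : List ℤ :=
  [0, 0, 0, 0, 0, 0, 0, 0, 0, 0, 0, 0, 0, 0, 0, 0, 0, 0, 0, 0, 0, 0, 0, 0, 0, 0, 0, 0, 0, 0,
  -1981214, 273474, 0, 0, 1981214, -273474, 0, 0, 0, 0, 0, 0, 0, 0, 0, 0, 0, 0, 0, 0]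

/-- Row 45 of the Jacobian matrix. -/
def M45 : List ℤ :=
  [0, 0, 0, 0, 0, 0, 0, 0, 0, 0, 0, 0, 0, 0, 0, 0, 0, 0, 0, 0, 0, 0, 0, 0, 0, 0, 0, 0, 0, 0, 0,
  0, 1810794, 849130, 0, 0, 0, 0, 0, 0, -1810794, -849130, 0, 0, 0, 0, 0, 0, 0, 0]

/-- Row 46 of the Jacobian matrix. -/
def M46 : List ℤ :=
  [0, 0, 0, 0, 0, 0, 0, 0, 0, 0, 0, 0, 0, 0, 0, 0, 0, 0, 0, 0, 0, 0, 0, 0, 0, 0, 0, 0, 0, 0, 0,
  0, 0, 0, 1640018, 1144700, 0, 0, 0, 0, 0, 0, 0, 0, 0, 0, 0, 0, -1640018, -1144700]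

/-- Row 47 of the Jacobian matrix. -/
def M47 : List ℤ :=
  [0, 0, 0, 0, 0, 0, 0, 0, 0, 0, 0, 0, 0, 0, 0, 0, 0, 0, 0, 0, 0, 0, 0, 0, 0, 0, 0, 0, 0, 0, 0,
  0, 0, 0, 0, 0, 1923536, 547730, 0, 0, 0, 0, 0, 0, 0, 0, 0, 0, -1923536, -547730]

/-- Row 48 of the Jacobian matrix. -/
def M48 : List ℤ :=
  [0, 0, 0, 0, 0, 0, 0, 0, 0, 0, 0, 0, 0, 0, 0, 0, 0, 0, 0, 0, 0, 0, 0, 0, 0, 0, 0, 0, 0, 0, 0,
  0, 0, 0, 0, 0, 0, 0, 0, 0, 1796448, 879078, 0, 0, 0, 0, -1796448, -879078, 0, 0]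

/-- Row 49 of the Jacobian matrix. -/
def M49 : List ℤ :=
  [0, 0, 0, 0, 0, 0, 0, 0, 0, 0, 0, 0, 0, 0, 0, 0, 0, 0, 0, 0, 0, 0, 0, 0, 0, 0, 0, 0, 0, 0, 0,
  0, 0, 0, 0, 0, 0, 0, 0, 0, 0, 0, -1421110, -1407284, 1421110, 1407284, 0, 0, 0, 0]

/-- The rows of the Jacobian matrix. -/
def Ml : List (List ℤ) :=
  [M0, M1, M2, M3, M4, M5, M6, M7, M8, M9, M10, M11, M12, M13, M14, M15, M16, M17, M18, M19,
  M20, M21, M22, M23, M24, M25, M26, M27, M28, M29, M30, M31, M32, M33, M34, M35, M36, M37, M38,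
  M39, M40, M41, M42, M43, M44, M45, M46, M47, M48, M49]

/-- Row 0 of the approximate inverse. -/
def Y0 : List ℤ :=
  [0, -31176, 8488, -20567, -19531, 45919, 12374, -21587, 61016, -3520, -50102, 35571, -23824,
  17586, 46195, 38714, -38806, 7777, 20992, 18252, 23925, 0, 0, 0, 0, 0, 0, 0, 0, 0, -21744,
  1722, 31693, -6866, -25910, 8141, 2489, -13284, 5540, -11162, 8253, 29535, -19428, 35362,
  3643, -49710, -2397, -24897, -44360, -42828]

/-- Row 1 of the approximate inverse. -/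
def Y1 : List ℤ :=
  [0, 12787, 19508, 2303, 2187, 9367, 12791, 23368, -15718, -11415, -26956, -3983, 2668, -1969,
  -5172, -4335, 4345, -871, -2350, -2044, -2679, 0, 0, 0, 0, 0, 0, 0, 0, 0, 2435, 467, 25637,
  -7098, -19564, 14090, -8963, -13732, 14498, 11335, 12326, 6025, -15716, -4499, -13116, -10141,
  8632, -20140, 4792, -10399]

/-- Row 2 of the approximate inverse. -/
def Y2 : List ℤ :=
  [0, -72601, 103081, 16115, 15304, 43235, -43756, 79917, -12565, 29648, -20281, 76019, -54015,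
  -13779, -36196, -30334, 30406, -6094, -16448, -14301, -18746, 0, 0, 0, 0, 0, 0, 0, 0, 0,
  17037, 19299, 25705, 24281, -47995, -39388, 12744, 46976, -35973, -13446, 5476, 27809, -15758,
  73595, 18650, -46805, -12274, -20193, -84415, 66989]

/-- Row 3 of the approximate inverse. -/
def Y3 : List ℤ :=
  [0, 2920, 61848, 24458, 23226, -2951, -14965, 63478, -1576, 3719, -2544, 4976, -59678, -20913,
  -54935, -46039, 46147, -9249, -24964, -21705, -28451, 0, 0, 0, 0, 0, 0, 0, 0, 0, 25858, 8059,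
  16704, 8304, -24434, -8566, -5615, 16066, -4721, 14024, 9873, -1898, -10240, 3467, -8216,
  3195, 5407, -13123, -1668, 49800]

/-- Row 4 of the approximate inverse. -/
def Y4 : List ℤ :=
  [0, 24853, 75879, 2431, 2309, -17810, -42904, 5650, -5936, 14007, -9581, -4205, 2816, -2079,
  -55717, -5008, 4587, -919, -2482, -2158, -2828, 0, 0, 0, 0, 0, 0, 0, 0, 0, 2570, 16349, 11236,
  23808, -32906, -27411, -10294, 46061, -17946, 21035, 9859, -11455, -6888, -17722, -15064,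
  19280, 9914, -8827, 849, 54650]

/-- Row 5 of the approximate inverse. -/
def Y5 : List ℤ :=
  [0, 32317, -34356, 22246, 21125, -18752, 38211, -37355, 10136, -23917, 16360, -38474, 25769,
  -19021, -13334, 20314, 41973, -8412, -22706, -19742, -25877, 0, 0, 0, 0, 0, 0, 0, 0, 0, 23519,
  -12932, -1168, -21204, 20349, 33106, -8505, -41023, 29420, 12918, 3165, -12061, 716, -29192,
  -12447, 20300, 8191, 918, 50919, -12744]

/-- Row 6 of the approximate inverse. -/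
def Y6 : List ℤ :=
  [0, 27724, 26362, -35771, 1889, 11788, -21447, 44, -3149, 7430, -5082, -3440, 2304, -1701,
  -4467, -3744, 3753, 37464, -2030, -1765, -2314, 0, 0, 0, 0, 0, 0, 0, 0, 0, 2103, 7405, 1451,
  11901, -12227, -13716, -5119, 23026, -8991, -7612, -1592, 7582, -889, -27786, -7491, -12761,
  4930, -1140, -22170, 17236]

/-- Row 7 of the approximate inverse. -/
def Y7 : List ℤ :=
  [0, 23898, 22724, 35177, 1628, 10161, -18487, 38, -2714, 6405, -4381, -2965, 1986, -1466,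
  -3851, -3227, 3235, 32293, -1750, -1522, -1994, 0, 0, 0, 0, 0, 0, 0, 0, 0, 1813, 6383, 1250,
  10259, -10540, -11823, -4412, 19848, -7750, -6562, -1373, 6536, -766, -23952, -6457, -11000,
  4250, -982, -19110, 14857]

/-- Row 8 of the approximate inverse. -/
def Y8 : List ℤ :=
  [0, 5261, 7489, 1067, 48679, -6556, -11092, -489, -1840, 4343, -2971, -1845, 1236, -912,
  -2396, -2008, 2013, -403, -1089, 7387, -1241, 0, 0, 0, 0, 0, 0, 0, 0, 0, 1128, 3437, -1379,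
  6155, -4166, -7701, -1411, 11908, -5590, 3827, 568, -4217, 845, -4719, -2065, 7097, 1359,
  1083, 1364, 3372]

/-- Row 9 of the approximate inverse. -/
def Y9 : List ℤ :=
  [0, -31781, -45238, -6444, 12089, 39600, 67000, 2956, 11117, -26232, 17944, 11145, -7464,
  5510, 14473, 12129, -12158, 2437, 6577, -44622, 7496, 0, 0, 0, 0, 0, 0, 0, 0, 0, -6812,
  -20763, 8330, -37179, 25164, 46520, 8524, -71930, 33765, -23117, -3430, 25471, -5106, 28506,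
  12475, -42870, -8210, -6544, -8242, -20371]

/-- Row 10 of the approximate inverse. -/
def Y10 : List ℤ :=
  [6122, 32179, 48380, 7647, 7262, -22175, -34796, -26833, -5026, 11858, -8112, -13226, 8858,
  -6539, -17176, -14395, 14429, -2892, -7805, -6786, -8896, 4193, 1246, -49671, 8003, -6718,
  -10167, -7827, 4387, 964, 8085, 32242, -36300, 64913, -21888, -19734, -818, 28561, -15358,
  -7081, -14092, -14882, 20758, -40048, 363, 23482, -4615, 38584, 7763, 32845]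

/-- Row 11 of the approximate inverse. -/
def Y11 : List ℤ :=
  [63498, 18367, -26679, 9170, 8708, 11, 17187, -76715, 8992, -21218, 14514, -15859, 10622,
  -7841, -20596, -17261, 17302, -3467, -9359, -8138, -10667, 43484, 12923, 5820, 83005, -69673,
  -105454, -81185, 45504, 9999, 9695, -9502, -3131, -14881, 16623, 23211, -22218, -17421, 26639,
  23021, 14314, -6409, -13569, -8621, -16331, -5444, -34637, 106884, 22097, -8090]

/-- Row 12 of the approximate inverse. -/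
def Y12 : List ℤ :=
  [-20362, 18526, 2964, 7892, 7494, -8255, 3121, -36520, 2677, -6317, 4321, -13649, 9142, -6748,
  -17726, -14855, 14890, -2984, -8055, -7004, -9180, 2419, -4144, -3941, 4618, 22342, -35213,
  -4517, 2532, 556, 8343, 668, -2515, 1886, 843, 6367, -7141, -4049, 7695, 10664, 5079, -5667,
  -3630, -14656, -9550, 8634, 3760, 36845, 16669, 6821]

/-- Row 13 of the approximate inverse. -/
def Y13 : List ℤ :=
  [45013, 20735, -6046, 10696, 10157, -8097, 14845, -45774, 5149, -12149, 8310, -18499, 12390,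
  -9146, -24024, -20133, 20181, -4045, -10917, -9492, -12442, -5348, 9161, 8712, -10209, -49391,
  -43472, 9986, -5597, -1230, 11308, -8168, 8518, -16236, 6044, 14619, -9089, -14394, 14964,
  18479, 11907, -4419, -11606, -12441, -15292, 9433, 15646, 36356, 25000, 3178]

/-- Row 14 of the approximate inverse. -/
def Y14 : List ℤ :=
  [-62727, 26864, 41664, 12427, 11801, -30985, 3759, 24421, -4495, 10606, -7255, -21493, 14395,
  -10626, -27912, -23392, 23448, -4699, -12684, -11029, -14456, 7453, -12766, -12140, -81998,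
  68828, 104174, 80200, -111322, -9878, 13138, 7395, 10640, 9061, -18972, -7031, 23159, -6185,
  -14147, 5325, -3651, -13592, 8778, -28267, -5699, 38909, 114783, -111516, 24564, 28017]

/-- Row 15 of the approximate inverse. -/
def Y15 : List ℤ :=
  [54739, 17690, -27534, 9778, 9285, -1110, 22091, -70194, 9060, -21378, 14623, -16911, 11326,
  -8361, -21962, -18405, 18449, -3697, -9980, -8677, -11374, -6504, 11141, 10594, 71556, -60063,
  -90908, -69987, 30784, 8620, 10337, -12662, 2840, -21986, 16994, 24827, -19168, -21841, 26794,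
  24600, 15642, -6245, -15093, -7123, -17103, -3481, -19449, 87790, 24234, -8704]

/-- Row 16 of the approximate inverse. -/
def Y16 : List ℤ :=
  [6106, 21527, 70350, 4164, 3954, -6902, -50990, 1181, -9297, 21938, -15007, -7202, 4824,
  -3560, -9353, -7838, 7857, -1575, -4250, -3695, -4844, -726, 1243, 1182, 7982, -6700, -10141,
  1355, -759, -47083, 4402, 17899, 8575, 27210, -33284, -37078, -3384, 54952, -28173, -21559,
  -2040, 25770, -6746, -22087, -5222, 33050, 4194, 3306, 4136, 44555]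

/-- Row 17 of the approximate inverse. -/
def Y17 : List ℤ :=
  [33018, 19375, -36586, 12385, 11762, -8710, 39368, -62861, 10575, -24954, 17069, -21421,
  14347, -10590, -27819, -23314, 23369, -4683, -12641, -10991, -14407, -3923, 6720, 6390, 43161,
  -36229, -54834, 7325, -4105, 20360, 13094, -15977, 3492, -27713, 21510, 34309, -10792, -41133,
  31220, 33083, 15133, -18666, -10194, -9073, -17253, -1632, 15449, 51556, 30680, -13923]

/-- Row 18 of the approximate inverse. -/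
def Y18 : List ℤ :=
  [-2620, 24468, 19293, 7363, 6992, -12780, -14521, -40186, 0, -1, 0, -12734, 8529, -6296,
  -16537, -13859, 13892, -2784, -7515, -6534, -8565, 16427, -28138, -26758, 31358, -26321,
  -39838, -30670, 17190, 3777, 7784, 15525, -21934, 32626, -7262, -3897, -7630, 10851, -270,
  3335, -3512, -10644, 7595, -25864, -5053, 11783, -13820, 56680, 11595, 16327]

/-- Row 19 of the approximate inverse. -/
def Y19 : List ℤ :=
  [79138, 32163, 25361, 9678, 9191, -16799, -19088, -52825, 0, -1, 0, -16739, 11211, -8276,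
  -21739, -18218, 18261, -3660, -9879, -8589, -11259, 21594, -36987, -35174, 41220, -34599,
  -52368, -40316, 22597, 4965, 10232, 20408, -28833, 42886, -9546, -5123, -10030, 14264, -355,
  4384, -4616, -13991, 9983, -33998, -6642, 15488, -18167, 74507, 15241, 21462]

/-- Row 20 of the approximate inverse. -/
def Y20 : List ℤ :=
  [0, 36936, -55840, -72128, 18576, 6085, 41982, -36172, 9862, -23272, 15919, -33831, 22659,
  -16725, 20963, 17568, -17610, 27275, 73619, -17359, -22754, 0, 0, 0, 0, 0, 0, 0, 0, 0, 20680,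
  -15277, -7084, -23297, 28236, 34374, -5279, -45072, 29232, -9491, -5170, 3914, 4343, -38960,
  -7725, -6587, 5084, 5565, 23628, -31365]

/-- Row 21 of the approximate inverse. -/
def Y21 : List ℤ :=
  [0, 41445, -133854, -34075, 33413, -703, 102333, -68946, 22070, -52076, 35622, -60853, 40757,
  -30085, 44588, 37368, -37456, 12885, 34779, -31225, -40929, 0, 0, 0, 0, 0, 0, 0, 0, 0, 37198,
  -36822, -15007, -56786, 66534, 79777, -4717, -109864, 65056, -10140, -8187, -452, 9199,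
  -45235, -6903, 761, 4543, 11789, 68126, -77718]

/-- Row 22 of the approximate inverse. -/
def Y22 : List ℤ :=
  [0, -71836, 94183, 13968, 15830, 43830, -38302, 74004, -11530, 27207, -18611, 73737, -49387,
  36455, -31372, -26292, 26354, -5282, -14256, -14793, -19391, 0, 0, 0, 0, 0, 0, 0, 0, 0, 14767,
  17235, 24352, 21254, -43889, -35397, 13022, 41121, -32908, -14842, 4604, 28191, -14928, 72302,
  19056, -47448, -12541, -19131, -81890, 61126]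

/-- Row 23 of the approximate inverse. -/
def Y23 : List ℤ :=
  [0, 16807, -99874, -14574, 32791, 7847, 84148, -43991, 17224, -40642, 27801, -36489, 24439,
  -18039, 32734, 27433, -27498, 5511, 14875, -30644, -40167, 0, 0, 0, 0, 0, 0, 0, 0, 0, -15408,
  -29458, -7886, -46695, 50198, 63974, -572, -90341, 50982, -11352, -5973, 5047, 4834, -20034,
  -837, -8494, 551, 6195, 44226, -56768]

/-- Row 24 of the approximate inverse. -/
def Y24 : List ℤ :=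
  [0, 26892, 50298, 6615, 6282, -22838, -27199, -19269, -5905, 13935, -9532, -11441, 7663,
  -5656, -14859, -12452, 12482, -2502, -6752, -5871, -7695, 0, 0, 0, 0, 0, 0, 0, 0, 0, 6994,
  29462, -36546, 15093, -23254, -21650, 2161, 29200, -17981, -9204, -15641, -14690, 22403,
  -35929, 3162, 24724, -2081, 28709, 6299, 33051]

/-- Row 25 of the approximate inverse. -/
def Y25 : List ℤ :=
  [0, 46371, 725, 991, 941, 13598, -9324, 916, 1216, -2870, 1963, -1714, 1148, -847, -2226,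
  -1865, 1870, -375, -1011, -879, -1153, 0, 0, 0, 0, 0, 0, 0, 0, 0, 1048, 48537, 14322, 5174,
  617, -895, -12529, 10011, 3924, 200, 5185, 8746, -8780, -41478, -18335, -14721, 12066, -11251,
  -10772, 2573]

/-- Row 26 of the approximate inverse. -/
def Y26 : List ℤ :=
  [0, -6615, 29789, -2789, -2649, 33578, -29572, -8678, 9072, -21406, 14643, 4824, -3231, 2385,
  6264, 5250, -5262, 1055, 2847, 2475, 3244, 0, 0, 0, 0, 0, 0, 0, 0, 0, -2949, 7976, -10123,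
  16410, -4574, -43952, 7706, 31748, 27584, -31804, -12448, 21597, 6206, -1539, 11277, -36350,
  -7422, 7952, -8071, 39825]

/-- Row 27 of the approximate inverse. -/
def Y27 : List ℤ :=
  [0, -20651, -14108, -5254, -4989, 29478, 53328, 6728, 7908, -18660, 12764, 9086, -6086, 4492,
  11800, 9889, -9913, 1987, 5362, 4662, 6111, 0, 0, 0, 0, 0, 0, 0, 0, 0, -5554, -14902, 15444,
  -29592, 11097, -9514, 3109, -57252, 24050, -10646, 2578, 18960, -9467, 21583, 4550, -31912,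
  -2995, -12132, -7258, 802]

/-- Row 28 of the approximate inverse. -/
def Y28 : List ℤ :=
  [0, 51576, 62620, 8764, 8323, -26320, -56961, -14184, -4680, 11042, -7553, -15157, 10152,
  -7494, -19684, -16497, 16536, -3314, -8945, -7777, -10195, 0, 0, 0, 0, 0, 0, 0, 0, 0, 9265,
  18671, -1554, 31608, -26995, -30328, -25994, 61153, -14453, -13301, 29622, -16929, 953,
  -30942, -38040, 28493, 25034, 1221, 13750, 45453]

/-- Row 29 of the approximate inverse. -/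
def Y29 : List ℤ :=
  [0, 32989, -47697, 7470, 7094, 17503, 24552, -37210, 12272, -28956, 19807, -12919, 8653,
  -6387, -16778, -14061, 14094, -2825, -7624, -6629, -8689, 0, 0, 0, 0, 0, 0, 0, 0, 0, 7897,
  -10829, -14427, -13624, 26934, 32734, -28767, -26358, 36620, 28048, 42966, 11258, 8844, -4496,
  -42099, -18948, 27706, 11333, 18821, -20593]

/-- Row 30 of the approximate inverse. -/
def Y30 : List ℤ :=
  [0, 37784, 30755, 12368, 11745, -14378, -38712, -34336, 2665, -6289, 4302, -21390, 14326,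
  -10575, -27779, -23280, 23335, -4677, -12623, -10976, -14387, 0, 0, 0, 0, 0, 0, 0, 0, 0,
  13075, 11103, -9662, 21482, -9626, -9404, -40451, 41561, 7501, 3681, -2439, -9248, 5923,
  -31194, -59197, 15565, 38959, 7590, 23452, 30320]

/-- Row 31 of the approximate inverse. -/
def Y31 : List ℤ :=
  [0, 55377, 4029, 1620, 1538, -1883, -5071, -4498, 349, -824, 563, -2802, 1877, -1385, -3639,
  -3049, 3057, -613, -1654, -1438, -1885, 0, 0, 0, 0, 0, 0, 0, 0, 0, 1713, 1454, -1266, 2814,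
  -1261, -1232, -5299, 5444, 983, 482, -319, -1211, 776, -4086, -7754, 2039, 5103, 994, 3072,
  3972]

/-- Row 32 of the approximate inverse. -/
def Y32 : List ℤ :=
  [0, 16265, 69899, 1698, 1613, 4803, -52817, 11608, -10200, 24068, -16463, -2937, 1967, -1452,
  -3814, -3197, 3204, -642, -1733, -1507, -1975, 0, 0, 0, 0, 0, 0, 0, 0, 0, 1795, 18902, 7187,
  29309, -33775, -39359, -1258, 56704, -30770, -25087, -4386, 26487, -4406, -18499, -1841,
  30231, 1212, -5646, -1394, 42719]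

/-- Row 33 of the approximate inverse. -/
def Y33 : List ℤ :=
  [0, -9081, -39025, -948, -900, 54584, 29489, -6481, 5695, -13437, 9192, 1640, -1098, 811,
  2130, 1785, -1789, 359, 968, 841, 1103, 0, 0, 0, 0, 0, 0, 0, 0, 0, -1002, -10553, -4013,
  -16364, 18857, 21975, 703, -31659, 17179, 14006, 2449, -14788, 2460, 10328, 1028, -16878,
  -677, 3152, 778, -23850]

/-- Row 34 of the approximate inverse. -/
def Y34 : List ℤ :=
  [0, 31967, 28039, 13379, 12705, -16068, -30800, -36113, 2968, -7004, 4791, -23139, 15498,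
  -11440, -30050, -25184, 25243, -5059, -13656, -11873, -15563, 0, 0, 0, 0, 0, 0, 0, 0, 0,
  14145, 8966, -6973, 17091, -8382, -5939, -35321, 33067, 8353, 6829, -603, -10335, 4275,
  -31254, -9550, 17394, 44085, 5478, 26178, 28511]

/-- Row 35 of the approximate inverse. -/
def Y35 : List ℤ :=
  [0, 13237, -15644, 8947, 8497, -14127, 52249, -17369, 2547, -6010, 4111, -15475, 10364, -7650,
  -20096, -16842, 16882, -3383, -9132, -7940, -10408, 0, 0, 0, 0, 0, 0, 0, 0, 0, 9459, -14033,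
  18211, -28994, 7753, 23874, 31865, -56094, 7159, 23287, 12982, -9087, -11163, -4516, -13742,
  15294, 42246, -14306, 22825, -9135]

/-- Row 36 of the approximate inverse. -/
def Y36 : List ℤ :=
  [0, 17496, 26578, 9283, 8815, -20594, -7782, -37329, -1029, 2427, -1660, -16054, 10753, -7937,
  -20849, -17473, 17514, -3510, -9474, -8238, -10798, 0, 0, 0, 0, 0, 0, 0, 0, 0, 9814, 3836,
  6763, 4318, -10757, -5160, -1485, 8355, -3546, 4039, -4457, -13246, 9548, -19734, -2173,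
  22294, 1430, 42674, 18796, 20834]

/-- Row 37 of the approximate inverse. -/
def Y37 : List ℤ :=
  [0, 23012, -58249, 7622, 7238, 19180, 38948, -43986, 13340, -31478, 21532, -13182, 8829,
  -6517, -17119, -14347, 14381, -2882, -7779, -6764, -8866, 0, 0, 0, 0, 0, 0, 0, 0, 0, 8058,
  -15172, -11992, -21613, 31688, 40102, -21593, -41815, 39813, 33125, 32989, 12336, -40739,
  -1215, -31599, -20763, 20796, 23469, 20298, -27800]

/-- Row 38 of the approximate inverse. -/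
def Y38 : List ℤ :=
  [0, 30197, 50598, 6716, 6378, -22022, -31400, -19302, -5852, 13808, -9445, -11616, 7780,
  -5743, -15085, -12642, 12672, -2540, -6855, -5960, -7812, 0, 0, 0, 0, 0, 0, 0, 0, 0, 7100,
  32928, -35747, 65886, -23328, -21819, 1315, 30030, -17802, -9236, -15364, -14165, 21913,
  -38944, 1924, 23840, -1266, 28082, 5593, 33391]

/-- Row 39 of the approximate inverse. -/
def Y39 : List ℤ :=
  [0, -2192, -3674, -488, -463, 1599, 52411, 1401, 425, -1002, 686, 843, -565, 417, 1095, 918,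
  -920, 184, 498, 433, 567, 0, 0, 0, 0, 0, 0, 0, 0, 0, -516, -2391, 2595, -4784, 1694, 1584,
  -95, -2180, 1292, 671, 1116, 1028, -1591, 2828, -140, -1731, 92, -2039, -406, -2424]

/-- Row 40 of the approximate inverse. -/
def Y40 : List ℤ :=
  [0, 5825, 42282, 70, 67, 26105, -44701, -2485, 146, -344, 235, -122, 82, -60, -158, -133, 133,
  -27, -72, -63, -82, 0, 0, 0, 0, 0, 0, 0, 0, 0, 75, 13675, -6525, 24805, -15809, -35444, 3270,
  47991, -29338, -23771, -8931, 16791, 4000, -11313, 4786, -28260, -3149, 5126, -3480, 36016]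

/-- Row 41 of the approximate inverse. -/
def Y41 : List ℤ :=
  [0, 13182, 19868, 2523, 2396, 9156, 12182, 23572, -16368, 38621, -26419, -4364, 2923, -2157,
  -5667, -4749, 4760, -954, -2575, -2239, -2935, 0, 0, 0, 0, 0, 0, 0, 0, 0, 2667, 595, 25229,
  -6760, -19456, 13625, -8955, -13078, 14126, 11201, 12142, 5889, -15466, -4997, -13104, -9912,
  8624, -19819, 5228, -9557]

/-- Row 42 of the approximate inverse. -/
def Y42 : List ℤ :=
  [0, -1016, 52559, 2414, 2292, -12685, -8581, -8003, -2692, 6352, -4345, -4175, 2796, -2064,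
  -5421, -4543, 4554, -913, -2464, -2142, -2808, 0, 0, 0, 0, 0, 0, 0, 0, 0, 2552, -534, -18397,
  4762, 14338, -8500, 4075, 9213, -8253, -3762, -7632, -8159, 11277, -3878, 5964, 13733, -3925,
  14452, 5294, 12667]

/-- Row 43 of the approximate inverse. -/
def Y43 : List ℤ :=
  [0, 2372, 4289, -5633, -5350, 29605, 20027, 18677, 6283, -14824, 10140, 9743, -6525, 4817,
  12653, 10604, -10629, 2130, 5750, 4999, 6553, 0, 0, 0, 0, 0, 0, 0, 0, 0, -5956, 1247, 42935,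
  -11113, -33463, 19837, -9511, -21501, 19261, 8780, 17812, 19042, -26319, 9051, -13918, -32050,
  9160, -33728, -12356, -29563]

/-- Row 44 of the approximate inverse. -/
def Y44 : List ℤ :=
  [0, 25245, 75774, 2626, 2494, -18184, -43019, 5355, -5932, 13997, -9575, -4542, 3042, -2246,
  -5899, -4944, 4955, -993, -2681, -2331, -3055, 0, 0, 0, 0, 0, 0, 0, 0, 0, 2777, 16369, 11137,
  23872, -32863, -27452, -10388, 46185, -17943, 21239, 9880, -11696, -6827, -18087, -15203,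
  19685, 10005, -8749, 1260, 54567]

/-- Row 45 of the approximate inverse. -/
def Y45 : List ℤ :=
  [0, -24147, -19154, -5848, -5553, 35158, 54804, 5188, 9554, -22545, 15421, 10114, -6774, 5000,
  13135, 11008, -11034, 2211, 5969, 5190, 6803, 0, 0, 0, 0, 0, 0, 0, 0, 0, -6183, -15823, 13111,
  -30411, 14202, 38975, 5095, -58837, 29046, -16466, 127, 22614, -8037, 23399, 7456, -38061,
  -4907, -10300, -8282, -816]

/-- Row 46 of the approximate inverse. -/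
def Y46 : List ℤ :=
  [0, -20201, 52004, -700, -665, 36199, -36008, 15912, -9129, 21540, -14734, 1210, -811, 598,
  1572, 1317, -1321, 265, 714, 621, 814, 0, 0, 0, 0, 0, 0, 0, 0, 0, -740, 13474, 8086, 19981,
  -26255, -30093, 5769, 38658, -26016, -20797, -2874, 23283, -4957, 17678, 8442, -39188, -5556,
  -6352, -66429, 29301]

/-- Row 47 of the approximate inverse. -/
def Y47 : List ℤ :=
  [0, 66369, 0, 4097, 3891, -11471, -5584, -14024, 2585, -6099, 4172, -7086, 4746, -3503, -9203,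
  -7713, 7731, -1549, -4182, -3636, -4766, 0, 0, 0, 0, 0, 0, 0, 0, 0, 4332, 1005, -4630, 3098,
  1891, 2690, -14061, 5995, 7336, 5122, -237, -7378, 2838, -64242, -20577, 12418, 13542, 3637,
  20111, 4165]

/-- Row 48 of the approximate inverse. -/
def Y48 : List ℤ :=
  [0, 12225, 5079, 5822, 5529, -7693, 1682, -50969, 1408, -3323, 2273, -10069, 6744, -4978,
  -13077, -10959, 10985, -2202, -5942, -5167, -6773, 0, 0, 0, 0, 0, 0, 0, 0, 0, 6155, -246,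
  1702, -933, -881, 3182, -3881, -1806, 3961, 6848, 2509, -4948, -1043, -10208, -5679, 8328,
  3737, -1337, 12493, 6567]

/-- Row 49 of the approximate inverse. -/
def Y49 : List ℤ :=
  [0, 41522, 17251, 19774, 18778, -26127, 5712, 3916, 4783, -11285, 7719, -34200, 22906, -16908,
  -44414, -37222, 37310, -7477, -20183, -17549, -23002, 0, 0, 0, 0, 0, 0, 0, 0, 0, 20906, -836,
  5781, -3170, -2993, 10807, -13180, -6133, 13452, 23259, 8523, -16805, -3544, -34669, -19288,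
  28284, 12694, -4542, 42432, 22304]

/-- The rows of the approximate inverse. -/
def Yl : List (List ℤ) :=
  [Y0, Y1, Y2, Y3, Y4, Y5, Y6, Y7, Y8, Y9, Y10, Y11, Y12, Y13, Y14, Y15, Y16, Y17, Y18, Y19,
  Y20, Y21, Y22, Y23, Y24, Y25, Y26, Y27, Y28, Y29, Y30, Y31, Y32, Y33, Y34, Y35, Y36, Y37, Y38,
  Y39, Y40, Y41, Y42, Y43, Y44, Y45, Y46, Y47, Y48, Y49]

/-- The approximate solution as a function. -/
def xh (i : Fin 50) : ℤ := xl.getD i.val 0

/-- The quadratic terms as a function. -/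
def eqQ (k : Fin 50) : List (ℤ × Fin 50 × Fin 50) := ql.getD k.val []

/-- The linear terms as a function. -/
def eqL (k : Fin 50) : List (ℤ × Fin 50) := ll.getD k.val []

/-- The constant terms as a function. -/
def eqC (k : Fin 50) : ℤ := cl.getD k.val 0

/-- The Jacobian matrix as a function. -/
def Mh (i k : Fin 50) : ℤ := (Ml.getD i.val []).getD k.val 0

/-- The approximate inverse as a function. -/
def Yh (i k : Fin 50) : ℤ := (Yl.getD i.val []).getD k.val 0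

end Pool.Agent.MPd94cb9
end

section

/-!
Existence of the exact real solution.
-/

namespace Pool.Agent.MPd94cb9

open Pool.Agent.MPf7203b

theorem exists_solution : ∃ z : Fin 50 → ℝ, (∀ i, |z i - xh i| ≤ (60 : ℤ)) ∧
    ∀ k, qval (eqQ k) (eqL k) (eqC k) z = 0 := by
  refine exists_zero_of_int eqQ eqL eqC xh Yh Mh 100000000000 60 960 (by norm_num) (by norm_num)
    ?_ ?_ ?_ ?_ ?_
  · decide +kernel
  · decide +kernel
  · decide +kernel
  · decide +kernel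
  · decide +kernel

end Pool.Agent.MPd94cb9
end

section

/-!
The embedding.
-/

namespace Pool.Agent.MPd94cb9

open Pool.Agent.MPf7203b

/-- The index of the variable for coordinate `c` of vertex `v`. -/
def idx (v c : ℕ) : Fin 50 := ⟨(2 * (v - 2) + c) % 50, Nat.mod_lt _ (by norm_num)⟩

/-- The quadratic terms of the equation of the edge `uv`. -/
def mkQ (u v : ℕ) : List (ℤ × Fin 50 × Fin 50) :=
  if 2 ≤ u then [(1, idx u 0, idx u 0), (1, idx v 0, idx v 0), (-2, idx u 0, idx v 0),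
    (1, idx u 1, idx u 1), (1, idx v 1, idx v 1), (-2, idx u 1, idx v 1)]
  else [(1, idx v 0, idx v 0), (1, idx v 1, idx v 1)]

/-- The linear terms. -/
def mkL (u v : ℕ) : List (ℤ × Fin 50) := if u = 1 then [(-2000000, idx v 0)] else []

/-- The constant term. -/
def mkC (u : ℕ) : ℤ := if u = 1 then 0 else 1000000000000

theorem eq_mk : ∀ k : Fin 50, eqQ k = mkQ (eds.getD k.val (0, 0)).1 (eds.getD k.val (0, 0)).2 ∧
    eqL k = mkL (eds.getD k.val (0, 0)).1 (eds.getD k.val (0, 0)).2 ∧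
    eqC k = mkC (eds.getD k.val (0, 0)).1 := by
  decide +kernel

theorem edge_mem : ∀ u v : Fin 27, u < v → adjB u v = true →
    (u = 0 ∧ v = 1) ∨ (2 ≤ v.val ∧ ∃ k : Fin 50, eds.getD k.val (0, 0) = (u.val, v.val)) := by
  decide +kernel

/-- Coordinate `c` of vertex `v`. -/
noncomputable def P (z : Fin 50 → ℝ) (v c : ℕ) : ℝ :=
  if v = 0 then 0 else if v = 1 then (if c = 0 then 1000000 else 0) else z (idx v c)

/-- The approximate coordinate `c` of vertex `v`. -/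
def PZ (v c : ℕ) : ℤ :=
  if v = 0 then 0 else if v = 1 then (if c = 0 then 1000000 else 0) else xh (idx v c)

theorem P_near {z : Fin 50 → ℝ} (hz : ∀ i, |z i - xh i| ≤ (60 : ℤ)) (v c : ℕ) :
    |P z v c - PZ v c| ≤ 60 := by
  unfold P PZ
  split_ifs
  · simp
  · simp
  · simp
  · exact_mod_cast hz _

theorem qval_mk (z : Fin 50 → ℝ) (u v : ℕ) (hv : 2 ≤ v) :
    qval (mkQ u v) (mkL u v) (mkC u) z =
      (P z u 0 - P z v 0) ^ 2 + (P z u 1 - P z v 1) ^ 2 - 1000000000000 := by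
  have hv0 : v ≠ 0 := by omega
  have hv1 : v ≠ 1 := by omega
  rcases Nat.lt_or_ge u 2 with hu | hu
  · interval_cases u
    · simp only [qval, mkQ, mkL, mkC, P, hv0, hv1]
      norm_num
      ring
    · simp only [qval, mkQ, mkL, mkC, P, hv0, hv1]
      norm_num
      ring
  · have hu0 : u ≠ 0 := by omega
    have hu1 : u ≠ 1 := by omega
    simp only [qval, mkQ, mkL, mkC, P, hv0, hv1, hu0, hu1, hu]
    norm_num
    ring

theorem edge_unit {z : Fin 50 → ℝ} (hz : ∀ k, qval (eqQ k) (eqL k) (eqC k) z = 0) (u v : Fin 27)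
    (huv : u < v) (h : adjB u v = true) :
    (P z u 0 - P z v 0) ^ 2 + (P z u 1 - P z v 1) ^ 2 = 1000000000000 := by
  rcases edge_mem u v huv h with ⟨rfl, rfl⟩ | ⟨hv, k, hk⟩
  · simp only [P]
    norm_num
  · have h1 := hz k
    obtain ⟨e1, e2, e3⟩ := eq_mk k
    rw [e1, e2, e3, hk, qval_mk z _ _ hv] at h1
    linarith

theorem gap : ∀ u v : Fin 27, u < v →
    (120 < |PZ u 0 - PZ v 0| ∨ 120 < |PZ u 1 - PZ v 1|) ∧
    (adjB u v = false → 120 * (2 * |PZ u 0 - PZ v 0| + 2 * |PZ u 1 - PZ v 1| + 240) <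
      |(PZ u 0 - PZ v 0) ^ 2 + (PZ u 1 - PZ v 1) ^ 2 - 1000000000000|) := by
  decide +kernel

theorem sub_near {z : Fin 50 → ℝ} (hz : ∀ i, |z i - xh i| ≤ (60 : ℤ)) (u v c : ℕ) :
    |(P z u c - P z v c) - (PZ u c - PZ v c : ℤ)| ≤ 120 := by
  have h1 := P_near hz u c
  have h2 := P_near hz v c
  push_cast
  rw [abs_le] at *
  constructor <;> linarith [h1.1, h1.2, h2.1, h2.2]

theorem sq_near {D : ℝ} {X : ℤ} (h : |D - X| ≤ 120) : |D ^ 2 - X ^ 2| ≤ 120 * (2 * |(X : ℝ)| + 120) := by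
  have e : D ^ 2 - (X : ℝ) ^ 2 = (D - X) * (D - X + 2 * X) := by ring
  rw [e, abs_mul]
  have h1 : |D - X + 2 * X| ≤ 120 + 2 * |(X : ℝ)| := by
    refine (abs_add_le _ _).trans ?_
    rw [abs_mul]
    norm_num
    exact h
  calc |D - X| * |D - X + 2 * X| ≤ 120 * (120 + 2 * |(X : ℝ)|) :=
        mul_le_mul h h1 (abs_nonneg _) (by norm_num)
    _ = _ := by ring

theorem nonedge {z : Fin 50 → ℝ} (hz : ∀ i, |z i - xh i| ≤ (60 : ℤ)) (u v : Fin 27)
    (huv : u < v) (h : adjB u v = false) :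
    (P z u 0 - P z v 0) ^ 2 + (P z u 1 - P z v 1) ^ 2 ≠ 1000000000000 := by
  intro he
  have hg := (gap u v huv).2 h
  have hg' : (120 : ℝ) * (2 * |((PZ u 0 - PZ v 0 : ℤ) : ℝ)| + 2 * |((PZ u 1 - PZ v 1 : ℤ) : ℝ)| +
      240) < |((PZ u 0 - PZ v 0 : ℤ) : ℝ) ^ 2 + ((PZ u 1 - PZ v 1 : ℤ) : ℝ) ^ 2 - 1000000000000| := by
    exact_mod_cast hg
  have h0 := sq_near (sub_near hz u v 0)
  have h1 := sq_near (sub_near hz u v 1)
  have h2 : |((PZ u 0 - PZ v 0 : ℤ) : ℝ) ^ 2 + ((PZ u 1 - PZ v 1 : ℤ) : ℝ) ^ 2 - 1000000000000| ≤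
      120 * (2 * |((PZ u 0 - PZ v 0 : ℤ) : ℝ)| + 120) +
      120 * (2 * |((PZ u 1 - PZ v 1 : ℤ) : ℝ)| + 120) := by
    rw [← he]
    rw [abs_le] at h0 h1 ⊢
    constructor <;> linarith [h0.1, h0.2, h1.1, h1.2]
  linarith

theorem distinct {z : Fin 50 → ℝ} (hz : ∀ i, |z i - xh i| ≤ (60 : ℤ)) (u v : Fin 27)
    (huv : u < v) : ¬ (P z u 0 = P z v 0 ∧ P z u 1 = P z v 1) := by
  rintro ⟨e0, e1⟩
  have h0 := sub_near hz u v 0
  have h1 := sub_near hz u v 1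
  rw [e0, sub_self, zero_sub, abs_neg] at h0
  rw [e1, sub_self, zero_sub, abs_neg] at h1
  have h0' : |PZ u 0 - PZ v 0| ≤ 120 := by exact_mod_cast h0
  have h1' : |PZ u 1 - PZ v 1| ≤ 120 := by exact_mod_cast h1
  rcases (gap u v huv).1 with h | h
  · omega
  · omega

/-- The point of the plane. -/
noncomputable def pt (z : Fin 50 → ℝ) (v : Fin 27) : EuclideanSpace ℝ (Fin 2) :=
  !₂[P z v 0 / 1000000, P z v 1 / 1000000]

theorem dist_pt (z : Fin 50 → ℝ) (u v : Fin 27) : dist (pt z u) (pt z v) = 1 ↔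
    (P z u 0 - P z v 0) ^ 2 + (P z u 1 - P z v 1) ^ 2 = 1000000000000 := by
  rw [EuclideanSpace.dist_eq, Real.sqrt_eq_one]
  simp only [Fin.sum_univ_two, Real.dist_eq, sq_abs, pt, PiLp.toLp_apply, Matrix.cons_val_zero,
    Matrix.cons_val_one]
  have e : (P z u 0 / 1000000 - P z v 0 / 1000000) ^ 2 +
      (P z u 1 / 1000000 - P z v 1 / 1000000) ^ 2 =
      ((P z u 0 - P z v 0) ^ 2 + (P z u 1 - P z v 1) ^ 2) / 1000000000000 := by ring
  rw [e, div_eq_one_iff_eq (by norm_num)]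

theorem exists_embedding : ∃ p : Fin 27 → EuclideanSpace ℝ (Fin 2), Function.Injective p ∧
    ∀ u v, G.Adj u v ↔ dist (p u) (p v) = 1 := by
  obtain ⟨z, hz, hq⟩ := exists_solution
  have key : ∀ u v : Fin 27, u < v → (adjB u v = true ↔ dist (pt z u) (pt z v) = 1) := by
    intro u v huv
    rw [dist_pt]
    constructor
    · exact edge_unit hq u v huv
    · intro h
      by_contra hne
      exact nonedge hz u v huv (by simpa using hne) h
  refine ⟨pt z, ?_, ?_⟩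
  · have hinj : ∀ u v : Fin 27, u < v → pt z u ≠ pt z v := by
      intro u v huv h
      refine distinct hz u v huv ⟨?_, ?_⟩
      · have := congrArg (fun x : EuclideanSpace ℝ (Fin 2) => x 0) h
        simp only [pt, PiLp.toLp_apply, Matrix.cons_val_zero] at this
        linarith
      · have := congrArg (fun x : EuclideanSpace ℝ (Fin 2) => x 1) h
        simp only [pt, PiLp.toLp_apply, Matrix.cons_val_one, Matrix.cons_val_fin_one] at this
        linarith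
    intro u v h
    by_contra hne
    rcases lt_or_gt_of_ne hne with h' | h'
    · exact hinj u v h' h
    · exact hinj v u h' h.symm
  · intro u v
    change adjB u v = true ↔ _
    rcases lt_trichotomy u v with h | h | h
    · exact key u v h
    · subst h
      simp [adjB_irrefl]
    · rw [dist_comm, ← key v u h]
      exact ⟨adjB_symm u v, adjB_symm v u⟩

end Pool.Agent.MPd94cb9
end
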